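import Mathlib
import Pool.Agent.Q65.GFD

/-!
# MP_bbd370_an, Q1: a growth-fragmentation semigroup with bounded `a` and a spectral gap

From `Pool/Agent/Q65/GFA.lean`: `IsC0` (C₀-semigroup on `[0,∞)`), `IsGen V f g` (`f` is in the domain
of the generator of `V` and is mapped to `g`), `essNorm` (distance to the compact operators),
`essRad` (essential spectral radius, by Nussbaum's formula), `typ` (growth bound), `essTyp`
(essential type). From `Pool/Agent/Q65/GFC.lean`: `mu` (the measure `x dx` on `(0,∞)`),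
`X1 = L¹(mu)`.
-/

namespace Pool.Agent.Results.MP_bbd370_an.SpectralGap

open Q65.GF Set MeasureTheory Filter Topology

/-- The hypotheses on the data `r`, `a`, `b`. -/
structure Data (r a : ℝ → ℝ) (b : ℝ → ℝ → ℝ) : Prop where
  r_meas : Measurable r
  r_pos : ∀ x, 0 < x → 0 < r x
  r_loc : LocallyIntegrableOn (fun τ => 1 / r τ) (Ioi 0)
  r_zero : ∫⁻ τ in Ioo 0 1, ENNReal.ofReal (1 / r τ) = ⊤
  r_inf : ∫⁻ τ in Ioi 1, ENNReal.ofReal (1 / r τ) = ⊤
  a_meas : Measurable a
  a_nn : ∀ x, 0 < x → 0 ≤ a x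
  b_meas : Measurable (Function.uncurry b)
  b_nn : ∀ x y, 0 < x → x < y → 0 ≤ b x y
  b_mass : ∀ y, 0 < y → ∫⁻ x in Ioo 0 y, ENNReal.ofReal (x * b x y) ≤ ENNReal.ofReal y

/-- families of bounded operators on `X₁`, indexed by time -/
abbrev Fam := ℝ → X1 →L[ℝ] X1

/-- `U` is a `C₀`-semigroup on `X₁` -/
def C0 (U : Fam) : Prop := IsC0 U

/-- generator on `X₁` -/
def Gen (U : Fam) (f g : X1) : Prop := IsGen U f g

/-- type `ω(V)` -/
noncomputable def omega (V : Fam) : EReal := typ V

/-- essential type `ω_ess(V)` -/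
noncomputable def omegaEss (V : Fam) : EReal := essTyp V

/-- `Xf y t = X(y,t)` is the backward flow: `∫_{X(y,t)}^y dτ/r(τ) = t`. -/
def IsFlow (r : ℝ → ℝ) (Xf : ℝ → ℝ → ℝ) : Prop :=
  ∀ y, 0 < y → ∀ t, 0 ≤ t → 0 < Xf y t ∧ Xf y t ≤ y ∧ ∫ τ in (Xf y t)..y, 1 / r τ = t

/-- `U` is the semigroup `U₀^{(a)}`. -/
def IsU0 (r a : ℝ → ℝ) (U : Fam) : Prop :=
  ∃ Xf, IsFlow r Xf ∧ ∀ t, 0 ≤ t → ∀ f : X1, ∀ᵐ y ∂mu,
    U t f y = Real.exp (-∫ p in (Xf y t)..y, a p / r p) * f (Xf y t) * deriv (fun z => Xf z t) y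

/-- `V` is a positive `C₀`-semigroup whose generator is `T₀^{(a)} + B` on the domain of the
generator `T₀^{(a)}` of `U`. -/
structure IsGF (a : ℝ → ℝ) (b : ℝ → ℝ → ℝ) (U V : Fam) : Prop where
  c0 : C0 V
  pos : ∀ t, 0 ≤ t → ∀ f : X1, 0 ≤ f → 0 ≤ V t f
  gen : ∀ f g : X1, Gen V f g ↔
    ∃ g₀ : X1, Gen U f g₀ ∧ ∀ᵐ x ∂mu, g x = g₀ x + ∫ y in Ioi x, a y * b x y * f y

/-- The full setting: data `r`, `a`, `b`, the `C₀`-semigroup `U = U₀^{(a)}` and the positive
`C₀`-semigroup `V` generated by `T₀^{(a)} + B`. -/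
structure Setting (r a : ℝ → ℝ) (b : ℝ → ℝ → ℝ) (U V : Fam) : Prop where
  data : Data r a b
  c0 : C0 U
  u0 : IsU0 r a U
  gf : IsGF a b U V

/-- `a` is bounded near `0` or bounded near `∞` -/
def EndBounded (a : ℝ → ℝ) : Prop :=
  (∃ δ > 0, ∃ C : ℝ, ∀ x, 0 < x → x < δ → a x ≤ C) ∨ (∃ M > 0, ∃ C : ℝ, ∀ x, M < x → a x ≤ C)

/-- The assertion of Q1. -/
def Q1 : Prop :=
  ∀ (r a : ℝ → ℝ) (b : ℝ → ℝ → ℝ) (U V : Fam),
    Setting r a b U V → EndBounded a → omegaEss V = omega V

noncomputable section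

/-- the kernel of the example -/
def bfun (x y : ℝ) : ℝ := if 2 < y ∧ 1 ≤ x ∧ x ≤ 2 then 3/7 * y else 0

lemma bfun_meas : Measurable (Function.uncurry bfun) := by
  unfold Function.uncurry bfun
  apply Measurable.ite _ (measurable_snd.const_mul _) measurable_const
  exact (measurableSet_lt measurable_const measurable_snd).inter
    ((measurableSet_le measurable_const measurable_fst).inter
      (measurableSet_le measurable_fst measurable_const))

lemma data_ok : Data (fun x => x) (fun _ => 2) bfun := by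
  refine ⟨measurable_id, fun x hx => hx, ?_, ?_, ?_, measurable_const, fun _ _ => by norm_num,
    bfun_meas, ?_, ?_⟩
  · apply ContinuousOn.locallyIntegrableOn _ measurableSet_Ioi
    exact continuousOn_const.div continuousOn_id fun x hx => (ne_of_gt hx)
  · by_contra h
    have hm : AEStronglyMeasurable (fun τ : ℝ => 1 / τ) (volume.restrict (Ioo 0 1)) :=
      (measurable_const.div measurable_id).aestronglyMeasurable
    have hnn : 0 ≤ᵐ[volume.restrict (Ioo (0:ℝ) 1)] (fun τ : ℝ => 1 / τ) := by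
      rw [EventuallyLE, ae_restrict_iff' measurableSet_Ioo]
      filter_upwards with x hx
      have := hx.1
      simp only [Pi.zero_apply]
      positivity
    have hi := (lintegral_ofReal_ne_top_iff_integrable hm hnn).1 h
    have h2 : IntegrableOn (fun x : ℝ => x ^ (-1 : ℝ)) (Ioo 0 1) := by
      refine IntegrableOn.congr_fun hi (fun x hx => ?_) measurableSet_Ioo
      rw [Real.rpow_neg_one, one_div]
    rw [intervalIntegral.integrableOn_Ioo_rpow_iff one_pos] at h2
    exact lt_irrefl _ h2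
  · by_contra h
    have hm : AEStronglyMeasurable (fun τ : ℝ => 1 / τ) (volume.restrict (Ioi 1)) :=
      (measurable_const.div measurable_id).aestronglyMeasurable
    have hnn : 0 ≤ᵐ[volume.restrict (Ioi (1:ℝ))] (fun τ : ℝ => 1 / τ) := by
      rw [EventuallyLE, ae_restrict_iff' measurableSet_Ioi]
      filter_upwards with x hx
      have : (1:ℝ) < x := hx
      simp only [Pi.zero_apply]
      positivity
    have hi := (lintegral_ofReal_ne_top_iff_integrable hm hnn).1 h
    have h2 : IntegrableOn (fun x : ℝ => x ^ (-1 : ℝ)) (Ioi 1) := by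
      refine IntegrableOn.congr_fun hi (fun x hx => ?_) measurableSet_Ioi
      rw [Real.rpow_neg_one, one_div]
    rw [integrableOn_Ioi_rpow_iff one_pos] at h2
    exact lt_irrefl _ h2
  · intro x y hx hxy
    unfold bfun
    split_ifs
    · have : 0 < y := hx.trans hxy
      positivity
    · exact le_rfl
  · intro y hy
    have hle : ∀ x ∈ Ioo 0 y, ENNReal.ofReal (x * bfun x y) ≤
        (Icc (1:ℝ) 2).indicator (fun _ => ENNReal.ofReal (6/7 * y)) x := by
      intro x hx
      by_cases h : x ∈ Icc (1:ℝ) 2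
      · rw [indicator_of_mem h]
        apply ENNReal.ofReal_le_ofReal
        unfold bfun
        split_ifs with h2
        · have := h.2
          have := hx.1
          nlinarith
        · rw [mul_zero]; positivity
      · rw [indicator_of_notMem h]
        unfold bfun
        rw [if_neg (fun h2 => h ⟨h2.2.1, h2.2.2⟩), mul_zero, ENNReal.ofReal_zero]
    calc ∫⁻ x in Ioo 0 y, ENNReal.ofReal (x * bfun x y)
        ≤ ∫⁻ x in Ioo 0 y, (Icc (1:ℝ) 2).indicator (fun _ => ENNReal.ofReal (6/7 * y)) x :=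
          setLIntegral_mono' measurableSet_Ioo hle
      _ ≤ ∫⁻ x, (Icc (1:ℝ) 2).indicator (fun _ => ENNReal.ofReal (6/7 * y)) x :=
          setLIntegral_le_lintegral _ _
      _ = ENNReal.ofReal (6/7 * y) := by
          rw [lintegral_indicator measurableSet_Icc, lintegral_const]
          simp
          norm_num
      _ ≤ ENNReal.ofReal y := ENNReal.ofReal_le_ofReal (by linarith)

lemma flow_ok : IsFlow (fun x => x) (fun y t => y * Real.exp (-t)) := by
  intro y hy t ht
  have he := Real.exp_pos (-t)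
  have he1 : Real.exp (-t) ≤ 1 := Real.exp_le_one_iff.2 (by linarith)
  refine ⟨by positivity, by nlinarith, ?_⟩
  rw [integral_one_div_of_pos (by positivity) hy]
  have : y / (y * Real.exp (-t)) = Real.exp t := by
    rw [Real.exp_neg]; field_simp
  rw [this, Real.log_exp]

lemma U0_ok : IsU0 (fun x => x) (fun _ => 2) UU := by
  refine ⟨fun y t => y * Real.exp (-t), flow_ok, fun t ht f => ?_⟩
  filter_upwards [UU_coe t f, ae_pos] with y hy hy0
  have hfl := (flow_ok y hy0 t ht).2.2
  have e1 : ∫ p in (y * Real.exp (-t))..y, (2:ℝ) / p = 2 * t := by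
    have : (fun p : ℝ => (2:ℝ) / p) = fun p => 2 * (1 / p) := by ext p; ring
    rw [this, intervalIntegral.integral_const_mul]
    simp only at hfl
    rw [hfl]
  have e2 : deriv (fun z : ℝ => z * Real.exp (-t)) y = Real.exp (-t) := by
    simp
  rw [hy]
  rw [e1, e2]
  unfold uf
  have e3 : Real.exp (-(3 * t)) = Real.exp (-(2 * t)) * Real.exp (-t) := by
    rw [← Real.exp_add]; congr 1; ring
  rw [e3, mul_comm (Real.exp (-t)) y]
  ring

/-- the semigroup of the example -/
def VV : Fam := Vp BB UU_C0 UU_le_one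

lemma frag (f : X1) : ∀ᵐ x ∂mu, (BB f : X1) x = ∫ y in Ioi x, 2 * bfun x y * f y := by
  have h0 : (BB f : X1) = ell f • h1 := rfl
  rw [h0]
  filter_upwards [Lp.coeFn_smul (ell f) h1, hfun_memLp.coeFn_toLp] with x hx1 hx2
  rw [hx1, Pi.smul_apply, smul_eq_mul]
  unfold h1
  rw [hx2]
  by_cases h : x ∈ Icc (1:ℝ) 2
  · have e1 : hfun x = 6/7 := by unfold hfun; rw [indicator_of_mem h]
    rw [e1]
    have e2 : ∫ y in Ioi x, 2 * bfun x y * f y = ∫ y in Ioi x, (Ioi 2).indicator (fun y => 6/7 * (y * f y)) y := by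
      apply setIntegral_congr_fun measurableSet_Ioi
      intro y _
      simp only
      by_cases hy : y ∈ Ioi (2:ℝ)
      · rw [indicator_of_mem hy]
        unfold bfun
        rw [if_pos ⟨hy, h.1, h.2⟩]; ring
      · rw [indicator_of_notMem hy]
        unfold bfun
        rw [if_neg (fun h2 => hy h2.1)]; ring
    rw [e2, integral_indicator measurableSet_Ioi, Measure.restrict_restrict measurableSet_Ioi]
    have e3 : Ioi (2:ℝ) ∩ Ioi x = Ioi 2 := by
      ext y
      simp only [mem_inter_iff, mem_Ioi]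
      constructor
      · exact fun h => h.1
      · intro hy; exact ⟨hy, lt_of_le_of_lt h.2 hy⟩
    rw [e3, integral_const_mul, ell_apply,
      int_mu measurableSet_Ioi (fun y (hy : (2:ℝ) < y) => (lt_trans two_pos hy : (0:ℝ) < y))]
    ring
  · have e1 : hfun x = 0 := by unfold hfun; rw [indicator_of_notMem h]
    rw [e1, mul_zero]
    have e2 : ∀ y, 2 * bfun x y * f y = 0 := by
      intro y
      unfold bfun
      rw [if_neg (fun h2 => h ⟨h2.2.1, h2.2.2⟩)]; ring
    simp [e2]

lemma smul_nn {c : ℝ} (hc : 0 ≤ c) {f : X1} (hf : 0 ≤ f) : 0 ≤ c • f := by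
  apply (Lp.coeFn_nonneg _).1
  filter_upwards [Lp.coeFn_smul c f, (Lp.coeFn_nonneg f).2 hf] with y h1 h2
  rw [h1]
  exact mul_nonneg hc h2

lemma GF_ok : IsGF (fun _ => 2) bfun UU VV := by
  refine ⟨Vp_C0 BB UU_C0 UU_le_one, ?_, ?_⟩
  · intro t ht f hf
    have hP := Vp_pos BB UU_C0 UU_le_one (P := {f : X1 | 0 ≤ f}) (by simp)
      (isClosed_le continuous_const continuous_id)
      (fun f hf g hg => by
        have hf' : (0:X1) ≤ f := hf
        have hg' : (0:X1) ≤ g := hg
        have : (0:X1) ≤ f + g := by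
          apply (Lp.coeFn_nonneg _).1
          filter_upwards [Lp.coeFn_add f g, (Lp.coeFn_nonneg f).2 hf', (Lp.coeFn_nonneg g).2 hg']
            with y h1 h2 h3
          rw [h1]
          exact add_nonneg h2 h3
        exact this)
      (fun c hc f hf => smul_nn hc hf)
      (by
        intro t _ f hf
        have hf0 : 0 ≤ᵐ[mu] f := (Lp.coeFn_nonneg f).2 hf
        apply (Lp.coeFn_nonneg _).1
        have hpos : ∀ᵐ y ∂mu, 0 ≤ f (Real.exp (-t) * y) :=
          (qmp_scale (Real.exp_pos (-t))).ae hf0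
        filter_upwards [UU_coe t f, hpos] with y h1 h2
        rw [h1]
        exact mul_nonneg (Real.exp_pos _).le h2)
      (by
        intro f hf
        have hf0 : 0 ≤ᵐ[mu] f := (Lp.coeFn_nonneg f).2 hf
        change (0:X1) ≤ ell f • h1
        apply smul_nn
        · rw [ell_apply]
          exact setIntegral_nonneg_of_ae hf0
        · apply (Lp.coeFn_nonneg _).1
          filter_upwards [hfun_memLp.coeFn_toLp] with y hy
          unfold h1
          rw [hy]
          unfold hfun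
          exact indicator_nonneg (fun _ _ => by norm_num) _)
      hf ht
    exact hP
  · intro f g
    unfold VV Gen
    rw [Vp_gen BB UU_C0 UU_le_one f g]
    constructor
    · rintro ⟨g₀, h1, rfl⟩
      refine ⟨g₀, h1, ?_⟩
      filter_upwards [Lp.coeFn_add g₀ (BB f), frag f] with x hx1 hx2
      rw [hx1, Pi.add_apply, hx2]
    · rintro ⟨g₀, h1, h2⟩
      refine ⟨g₀, h1, ?_⟩
      apply Lp.ext
      filter_upwards [Lp.coeFn_add g₀ (BB f), frag f, h2] with x hx1 hx2 hx3
      rw [hx1, Pi.add_apply, hx2, hx3]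

lemma gap : essTyp VV ≤ ((-1 : ℝ) : EReal) ∧ (0 : EReal) ≤ typ VV := by
  constructor
  · exact essTyp_le BB UU_C0 UU_le_one (w := -1) (fun t _ => by
      have := UU_opNorm t
      rwa [neg_one_mul]) ell h1 (fun f => rfl)
  · exact typ_ge f0_ne (Vp_fixed BB UU_C0 UU_le_one gen_f0)

lemma setting_ok : Setting (fun x => x) (fun _ => 2) bfun UU VV :=
  ⟨data_ok, UU_C0, U0_ok, GF_ok⟩

/-- Q1 is false: for `r(x) = x`, `a = 2` and a suitable kernel the semigroup `V` has a spectral gap,
with `ω_ess(V) ≤ -1` and `ω(V) ≥ 0`. -/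
theorem result :
    ¬ Q1 ∧
    ∃ (b : ℝ → ℝ → ℝ) (U V : Fam), Setting (fun x => x) (fun _ => 2) b U V ∧
      omegaEss V ≤ ((-1 : ℝ) : EReal) ∧ 0 ≤ omega V ∧ omegaEss V < omega V := by
  have hlt : omegaEss VV < omega VV := by
    refine lt_of_le_of_lt gap.1 (lt_of_lt_of_le ?_ gap.2)
    exact_mod_cast (by norm_num : (-1:ℝ) < 0)
  refine ⟨?_, bfun, UU, VV, setting_ok, gap.1, gap.2, hlt⟩
  intro h
  have := h (fun x => x) (fun _ => 2) bfun UU VV setting_ok
    (Or.inl ⟨1, one_pos, 2, fun _ _ _ => le_rfl⟩)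
  rw [this] at hlt
  exact lt_irrefl _ hlt

end

end Pool.Agent.Results.MP_bbd370_an.SpectralGap
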